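import Mathlib
import Pool.Agent.H29.Fock3

namespace Pool.Agent.Results.MP_d26497_an.Counter

open Pool.Agent.H29.Fock MvPolynomial MeasureTheory

/-- `f` is almost everywhere equal to an entire function. -/
def EntireRep {E : Type*} [NormedAddCommGroup E] [NormedSpace ℂ E] [MeasurableSpace E]
    (μ : Measure E) (f : E → ℂ) : Prop :=
  ∃ F : E → ℂ, Differentiable ℂ F ∧ f =ᵐ[μ] F

/-- The closure of the relation `Γ` has compact resolvent. -/
def ClosCR {H : Type*} [NormedAddCommGroup H] [NormedSpace ℂ H] (Γ : H → H → Prop) : Prop :=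
  CompactRes (closure {x : H × H | Γ x.1 x.2})

/-- `g` is the orthogonal projection onto `K` of some `h` with `M f h`. -/
def Compress {L : Type*} [NormedAddCommGroup L] [InnerProductSpace ℂ L] (K : Set L)
    (M : L → L → Prop) (f g : L) : Prop :=
  ∃ h, M f h ∧ ∀ k ∈ K, inner ℂ k (h - g) = 0

/-- On the subspace `K` with underlying set `S`, the closure of the compression of `M` has
compact resolvent. -/
def SubCR {L : Type*} [NormedAddCommGroup L] [InnerProductSpace ℂ L] (S : Set L)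
    (M : L → L → Prop) : Prop :=
  ∃ K : Submodule ℂ L, (K : Set L) = S ∧ ClosCR fun f g : K => Compress S M f g

/-- The space `L²(μ)`. -/
abbrev L2 {E : Type*} [MeasurableSpace E] (μ : Measure E) : Type _ := Lp ℂ 2 μ

/-- A representative of an element of `L²(μ)`. -/
noncomputable def rep {E : Type*} [MeasurableSpace E] {μ : Measure E} (f : L2 μ) : E → ℂ := f

/-- The closure of the Toeplitz operator with symbol `φ` on `H²(μ)` has compact resolvent. -/
def ToepCR {E : Type*} [NormedAddCommGroup E] [NormedSpace ℂ E] [MeasurableSpace E]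
    (μ : Measure E) (φ : E → ℂ) : Prop :=
  SubCR {f : L2 μ | EntireRep μ (rep f)} fun f h => rep h =ᵐ[μ] fun z => φ z * rep f z

lemma toepCR_iff (φ : (Fin 2 → ℂ) → ℂ) :
    ToepCR (gauss 2) φ ↔ CompactRes (closure (toepGraph (entire (gauss 2)) φ)) := by
  constructor
  · rintro ⟨K, hK, h⟩
    obtain rfl : K = entire (gauss 2) := SetLike.coe_injective hK
    exact h
  · exact fun h => ⟨entire (gauss 2), rfl, h⟩

lemma hom (i : Fin 2) : (((X (.inl i) * X (.inr i)) ^ 2 :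
    MvPolynomial (Fin 2 ⊕ Fin 2) ℂ)).IsHomogeneous 4 := by
  have := ((isHomogeneous_X ℂ (Sum.inl i : Fin 2 ⊕ Fin 2)).mul (isHomogeneous_X ℂ (.inr i))).pow 2
  rwa [show (1 + 1) * 2 = 4 by norm_num] at this

lemma e1 : symb ((X (.inl 0) * X (.inr 0)) ^ 2 * (X (.inl 1) * X (.inr 1)) ^ 2 :
    MvPolynomial (Fin 2 ⊕ Fin 2) ℂ) = fun z => rad (2, 2) z + (0:ℝ) * rad (0, 2) z := by
  funext z; simp [symb, rad, mon]; ring

lemma e2 : symb ((X (.inl 0) * X (.inr 0)) ^ 2 * (X (.inl 1) * X (.inr 1)) ^ 2 +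
    C (-2) * (X (.inl 1) * X (.inr 1)) ^ 2 : MvPolynomial (Fin 2 ⊕ Fin 2) ℂ)
    = fun z => rad (2, 2) z + (-2:ℝ) * rad (0, 2) z := by
  funext z; simp [symb, rad, mon]; ring

theorem result : ∃ ψ φ₁ : MvPolynomial (Fin 2 ⊕ Fin 2) ℂ,
    ψ ≠ 0 ∧ ψ.IsHomogeneous 8 ∧ φ₁.totalDegree ≤ 7 ∧
    ToepCR (gauss 2) (symb ψ) ∧ ¬ ToepCR (gauss 2) (symb (ψ + φ₁)) := by
  refine ⟨(X (.inl 0) * X (.inr 0)) ^ 2 * (X (.inl 1) * X (.inr 1)) ^ 2,
    C (-2) * (X (.inl 1) * X (.inr 1)) ^ 2, ?_, ?_, ?_, ?_, ?_⟩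
  · simp
  · have := (hom 0).mul (hom 1)
    rwa [show 4 + 4 = 8 by norm_num] at this
  · exact ((hom 1).C_mul _).totalDegree_le.trans (by norm_num)
  · rw [e1, toepCR_iff]; exact partA
  · rw [e2, toepCR_iff]; exact partB

end Pool.Agent.Results.MP_d26497_an.Counter
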